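import Pool.Agent.TH943.CY.Tw

/-!
The orders of vanishing of the `L`-functions of the two constant twists of `D(t) y ^ 2 = f(x) - t`
together.
-/

set_option autoImplicit false
set_option maxHeartbeats 1000000

open PowerSeries

namespace Pool.Agent.Q7.PT

open Pool.Agent.W313.Hyp Pool.Agent.W343.BSD Pool.Agent.TH943.HJ Pool.Agent.TH943.CY

section

variable {k : Type} [Field k] [Finite k]

theorem order_bound2 (hq : ((Nat.card k : ℕ) : ZMod 2) = 1) {f D : Polynomial k}
    (hf : 0 < f.natDegree) (hD : D ≠ 0) (a b : ℕ) (G : Polynomial ℤ)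
    (hG : Pool.Agent.TH943.HJ.LF f D = (((1 - Polynomial.C (Nat.card k : ℤ) * Polynomial.X) ^ a *
      (1 + Polynomial.C (Nat.card k : ℤ) * Polynomial.X) ^ b * G :
        Polynomial ℤ) : PowerSeries ℤ)) :
    a + b + ∑ P ∈ facs D, twoPart P.1.natDegree ≤
      ∑ P ∈ facs D, ∑ R ∈ facs (P.1.comp f), twoPart R.1.natDegree := by
  classical
  have hid := Pool.Agent.TH943.HJ.identity hq hf hD
  set GG : Polynomial (ZMod 2) := G.map (Int.castRingHom (ZMod 2)) with hGG
  have hred : red2 (Pool.Agent.TH943.HJ.LF f D) =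
      (((1 + Polynomial.X) ^ (a + b) * GG : Polynomial (ZMod 2)) : PowerSeries (ZMod 2)) := by
    rw [hG, red2_poly]
    congr 1
    rw [Polynomial.map_mul, Polynomial.map_mul, Polynomial.map_pow, Polynomial.map_pow,
      Polynomial.map_sub, Polynomial.map_add, Polynomial.map_one,
      Polynomial.map_mul, Polynomial.map_C, Polynomial.map_X]
    have h3 : (Int.castRingHom (ZMod 2)) (Nat.card k : ℤ) = 1 := by
      rw [eq_intCast, Int.cast_natCast, hq]
    rw [h3, map_one, one_mul, CharTwo.sub_eq_add, ← pow_add]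
  set A : Polynomial (ZMod 2) := ∏ P ∈ facs D, (1 + Polynomial.X ^ P.1.natDegree) with hA
  set B : Polynomial (ZMod 2) :=
    ∏ P ∈ facs D, ∏ R ∈ facs (P.1.comp f), (1 + Polynomial.X ^ R.1.natDegree) with hB
  have eA : ((A : Polynomial (ZMod 2)) : PowerSeries (ZMod 2)) =
      ∏ P ∈ facs D, (1 + X ^ P.1.natDegree) := by
    rw [hA, coe_prod]
    exact Finset.prod_congr rfl fun v _ => coe_zf' _
  have eB : ((B : Polynomial (ZMod 2)) : PowerSeries (ZMod 2)) =
      ∏ P ∈ facs D, ∏ R ∈ facs (P.1.comp f), (1 + X ^ R.1.natDegree) := by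
    rw [hB, coe_prod]
    refine Finset.prod_congr rfl fun v _ => ?_
    rw [coe_prod]
    exact Finset.prod_congr rfl fun P _ => coe_zf' _
  have hpoly : (1 + Polynomial.X) ^ (a + b) * GG * A = B := by
    apply coe_inj2
    rw [Polynomial.coe_mul _ A, ← hred, eA, eB]
    exact hid
  have hA0 : ∀ P ∈ facs D, (1 + Polynomial.X ^ P.1.natDegree : Polynomial (ZMod 2)) ≠ 0 :=
    fun P _ => one_add_ne (MI.deg_pos P)
  have hB00 : ∀ P : MI k, ∀ R ∈ facs (P.1.comp f),
      (1 + Polynomial.X ^ R.1.natDegree : Polynomial (ZMod 2)) ≠ 0 :=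
    fun _ R _ => one_add_ne (MI.deg_pos R)
  have hB0 : ∀ P ∈ facs D, ∏ R ∈ facs (P.1.comp f),
      (1 + Polynomial.X ^ R.1.natDegree : Polynomial (ZMod 2)) ≠ 0 :=
    fun P _ => Finset.prod_ne_zero_iff.2 (hB00 P)
  have hBne : B ≠ 0 := Finset.prod_ne_zero_iff.2 hB0
  have hAne : A ≠ 0 := Finset.prod_ne_zero_iff.2 hA0
  have hL0 : (1 + Polynomial.X) ^ (a + b) * GG ≠ 0 := by
    intro h
    rw [h, zero_mul] at hpoly
    exact hBne hpoly.symm
  have hmu := congrArg mu hpoly
  rw [mu_mul hL0 hAne, mu_mul (left_ne_zero_of_mul hL0) (right_ne_zero_of_mul hL0),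
    mu_pow one_add_X_ne, mu_one_add_X, mul_one] at hmu
  have m1 : mu A = ∑ P ∈ facs D, twoPart P.1.natDegree := by
    rw [hA, mu_prod _ _ hA0]
    exact Finset.sum_congr rfl fun P _ => mu_one_add (MI.deg_pos P)
  have m2 : mu B = ∑ P ∈ facs D, ∑ R ∈ facs (P.1.comp f), twoPart R.1.natDegree := by
    rw [hB, mu_prod _ _ hB0]
    refine Finset.sum_congr rfl fun P _ => ?_
    rw [mu_prod _ _ (hB00 P)]
    exact Finset.sum_congr rfl fun R _ => mu_one_add (MI.deg_pos R)
  rw [m1, m2] at hmu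
  omega

open Classical in
/-- the sum of the two orders is bounded by the contribution of the primes which are not inert -/
theorem order_le2 (h2 : (2 : k) ≠ 0) {f D : Polynomial k} (hm : f.Monic) (hf : Odd f.natDegree)
    (hD : D ≠ 0) (a b : ℕ) (G : Polynomial ℤ)
    (hG : Pool.Agent.TH943.HJ.LF f D = (((1 - Polynomial.C (Nat.card k : ℤ) * Polynomial.X) ^ a *
      (1 + Polynomial.C (Nat.card k : ℤ) * Polynomial.X) ^ b * G :
        Polynomial ℤ) : PowerSeries ℤ)) :
    a + b ≤ (f.natDegree - 1) *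
      ∑ P ∈ (primes D).filter (fun P => ¬ Irreducible (P.comp f)), twoPart P.natDegree := by
  have h1 := order_bound2 (card_odd h2) hf.pos hD a b G hG
  have h3 : ∑ P ∈ facs D, ∑ R ∈ facs (P.1.comp f), twoPart R.1.natDegree ≤
      ∑ P ∈ facs D, (twoPart P.1.natDegree + if ¬ Irreducible (P.1.comp f) then
        (f.natDegree - 1) * twoPart P.1.natDegree else 0) := by
    refine Finset.sum_le_sum fun P _ => ?_
    split_ifs with h
    · rw [Pool.Agent.TH943.PT.sum_over_inert hm hf P h, add_zero]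
    · have h4 := Pool.Agent.TH943.PT.sum_over_le hf.pos P
      have h5 := hf.pos
      obtain ⟨e, he⟩ : ∃ e, f.natDegree = e + 1 := ⟨f.natDegree - 1, by omega⟩
      rw [he] at h4 ⊢
      rw [Nat.add_sub_cancel]
      linarith
  rw [Finset.sum_add_distrib] at h3
  have h6 : ∑ P ∈ facs D, (if ¬ Irreducible (P.1.comp f) then
        (f.natDegree - 1) * twoPart P.1.natDegree else 0) =
      (f.natDegree - 1) * ∑ P ∈ (primes D).filter (fun P => ¬ Irreducible (P.comp f)),
        twoPart P.natDegree := by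
    rw [sum_primes hD (fun P => if ¬ Irreducible (P.comp f) then
        (f.natDegree - 1) * twoPart P.natDegree else 0), ← Finset.sum_filter, Finset.mul_sum]
  rw [h6] at h3
  omega

/-- twisting the character of a point of the plane -/
theorem chi_tw (h2 : (2 : k) ≠ 0) {g : k} (hg : ¬ IsSquare g) (f : Polynomial k)
    (D : Polynomial k) (P : MI k) (Q : MI (RF P)) :
    chi (Pool.Agent.TH943.HJ.tw f (Polynomial.C g * D) P) Q.1 =
      (-1) ^ (P.1.natDegree * Q.1.natDegree) * chi (Pool.Agent.TH943.HJ.tw f D P) Q.1 := by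
  classical
  have := finRF P
  have hQf : Fact (Irreducible Q.1) := ⟨Q.2.2⟩
  have h9 : Finite (AdjoinRoot Q.1) := finRF Q
  have := Fintype.ofFinite k
  have := Fintype.ofFinite (AdjoinRoot Q.1)
  have hg0 : g ≠ 0 := by
    rintro rfl
    exact hg (IsSquare.zero)
  rw [chi_eq Q, chi_eq Q]
  have h3 : Pool.Agent.TH943.HJ.tw f (Polynomial.C g * D) P =
      Polynomial.C (algebraMap k (RF P) g) * Pool.Agent.TH943.HJ.tw f D P := by
    unfold Pool.Agent.TH943.HJ.tw
    rw [map_mul, AdjoinRoot.mk_C, Polynomial.C_mul, mul_assoc]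
    rfl
  rw [h3, map_mul, map_mul, AdjoinRoot.mk_C]
  have h1 := chi_ext (F := k) (F' := AdjoinRoot Q.1) h2 hg0
  rw [neg_one_of_nonsquare hg, finrank_two] at h1
  rw [← h1]
  rfl

/-- **the twist by a constant** -/
theorem LF_twist (h2 : (2 : k) ≠ 0) {g : k} (hg : ¬ IsSquare g) (f : Polynomial k)
    (D : Polynomial k) :
    Pool.Agent.TH943.HJ.LF f (Polynomial.C g * D) = rescale (-1 : ℤ) (Pool.Agent.TH943.HJ.LF f D) := by
  have hg0 : g ≠ 0 := by
    rintro rfl
    exact hg (IsSquare.zero)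
  have hu : IsUnit (Polynomial.C g) := Polynomial.isUnit_C.2 (isUnit_iff_ne_zero.2 hg0)
  unfold Pool.Agent.TH943.HJ.LF
  rw [rescale_eulerProd (plane_finite D)]
  have hiff : ∀ P : MI k, ¬ P.1 ∣ D ↔ ¬ P.1 ∣ Polynomial.C g * D := by
    intro P
    rw [hu.dvd_mul_left]
  let E : (Σ P : {P : MI k // ¬ P.1 ∣ D}, MI (RF P.1)) ≃
      (Σ P : {P : MI k // ¬ P.1 ∣ Polynomial.C g * D}, MI (RF P.1)) :=
    { toFun := fun z => ⟨⟨z.1.1, (hiff _).1 z.1.2⟩, z.2⟩
      invFun := fun z => ⟨⟨z.1.1, (hiff _).2 z.1.2⟩, z.2⟩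
      left_inv := fun _ => rfl
      right_inv := fun _ => rfl }
  rw [eulerProd_comp E]
  congr 1
  funext z
  show ptFactor (Pool.Agent.TH943.HJ.tw f (Polynomial.C g * D) z.1.1) z.1.1.1.natDegree z.2 = _
  unfold ptFactor
  rw [chi_tw h2 hg, rescale_factor]

/-- the combination of the two orders -/
theorem combine (h2 : (2 : k) ≠ 0) {g : k} (hg : ¬ IsSquare g) (f : Polynomial k)
    (D : Polynomial k) (a b : ℕ) (G1 G2 : Polynomial ℤ)
    (h : Pool.Agent.TH943.HJ.LF f D = (((1 - Polynomial.C (Nat.card k : ℤ) * Polynomial.X) ^ a * G1 :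
        Polynomial ℤ) : PowerSeries ℤ))
    (h' : Pool.Agent.TH943.HJ.LF f (Polynomial.C g * D) =
      (((1 - Polynomial.C (Nat.card k : ℤ) * Polynomial.X) ^ b * G2 :
        Polynomial ℤ) : PowerSeries ℤ)) :
    ∃ G : Polynomial ℤ, Pool.Agent.TH943.HJ.LF f D =
      (((1 - Polynomial.C (Nat.card k : ℤ) * Polynomial.X) ^ a *
        (1 + Polynomial.C (Nat.card k : ℤ) * Polynomial.X) ^ b * G :
        Polynomial ℤ) : PowerSeries ℤ) := by
  set q : ℤ := (Nat.card k : ℤ) with hq
  rw [LF_twist h2 hg] at h'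
  have h3 := congrArg (rescale (-1 : ℤ)) h'
  rw [rescale_rescale, mul_neg, mul_one, neg_neg, rescale_one, RingHom.id_apply] at h3
  have h4 : ∀ F : Polynomial ℤ, rescale (-1 : ℤ) (F : PowerSeries ℤ) =
      ((F.comp (Polynomial.C (-1) * Polynomial.X) : Polynomial ℤ) : PowerSeries ℤ) := by
    intro F
    ext n
    rw [coeff_rescale, Polynomial.coeff_coe, Polynomial.coeff_coe,
      Polynomial.comp_C_mul_X_coeff, mul_comm]
  rw [h4] at h3
  have h5 : (1 - Polynomial.C q * Polynomial.X) ^ a * G1 =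
      ((1 - Polynomial.C q * Polynomial.X) ^ b * G2).comp
        (Polynomial.C (-1) * Polynomial.X) := by
    apply Polynomial.coe_injective
    rw [← h, ← h3]
  have h6 : ((1 - Polynomial.C q * Polynomial.X) ^ b * G2).comp
        (Polynomial.C (-1) * Polynomial.X) = (1 + Polynomial.C q * Polynomial.X) ^ b *
        G2.comp (Polynomial.C (-1) * Polynomial.X) := by
    rw [Polynomial.mul_comp, Polynomial.pow_comp, Polynomial.sub_comp, Polynomial.one_comp,
      Polynomial.mul_comp, Polynomial.C_comp, Polynomial.X_comp]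
    congr 2
    rw [Polynomial.C_neg, Polynomial.C_1]
    ring
  rw [h6] at h5
  have h7 : (1 - Polynomial.C q * Polynomial.X) ^ a * (1 + Polynomial.C q * Polynomial.X) ^ b ∣
      (1 - Polynomial.C q * Polynomial.X) ^ a * G1 := by
    apply (relPrime q a b).mul_dvd
    · exact dvd_mul_right _ _
    · rw [h5]
      exact dvd_mul_right _ _
  obtain ⟨G, hG⟩ := h7
  exact ⟨G, by rw [h, hG]⟩

end

end Pool.Agent.Q7.PT
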