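import Mathlib.RingTheory.IntegralClosure.IntegrallyClosed
import Mathlib.Algebra.Polynomial.Reverse
import Pool.Agent.Q7.PT.Tw

/-!
If all the prime factors of `D` are inert then the `L`-function has no zeros `T` with `(q T) ^ e = 1`,
for all `e` prime to the degree of `f`.
-/

set_option autoImplicit false
set_option maxHeartbeats 1000000

open Polynomial

namespace Pool.Agent.Q7.PT

open Pool.Agent.W313.Hyp Pool.Agent.W343.BSD Pool.Agent.TH943.HJ Pool.Agent.TH943.CY

/-- a homomorphism of the ring of the algebraic integers to a field of characteristic two -/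
theorem exists_hom : ∃ (F : Type) (_ : Field F) (_ : CharP F 2), Nonempty (integralClosure ℤ ℂ →+* F) := by
  have h2 : Ideal.span {(2 : integralClosure ℤ ℂ)} ≠ ⊤ := by
    intro h
    rw [Ideal.span_singleton_eq_top] at h
    obtain ⟨u, hu⟩ := h
    have h3 : IsIntegral ℤ ((u⁻¹ : (integralClosure ℤ ℂ)ˣ) : integralClosure ℤ ℂ).1 :=
      ((u⁻¹ : (integralClosure ℤ ℂ)ˣ) : integralClosure ℤ ℂ).2
    have h4 : (2 : ℂ) * ((u⁻¹ : (integralClosure ℤ ℂ)ˣ) : integralClosure ℤ ℂ).1 = 1 := by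
      have h5 : (u : integralClosure ℤ ℂ) * ((u⁻¹ : (integralClosure ℤ ℂ)ˣ) : integralClosure ℤ ℂ) = 1 :=
        u.mul_inv
      rw [hu] at h5
      have h6 := congrArg Subtype.val h5
      exact h6
    have h5 : ((u⁻¹ : (integralClosure ℤ ℂ)ˣ) : integralClosure ℤ ℂ).1 =
        algebraMap ℚ ℂ (1 / 2) := by
      have h7 : algebraMap ℚ ℂ (1 / 2) = 1 / 2 := by norm_num
      rw [h7]
      have h8 : (2 : ℂ) ≠ 0 := two_ne_zero
      field_simp
      rw [mul_comm]
      exact h4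
    rw [h5] at h3
    have h6 : IsIntegral ℤ (1 / 2 : ℚ) := (isIntegral_algebraMap_iff (algebraMap ℚ ℂ).injective).1 h3
    obtain ⟨n, hn⟩ := (IsIntegrallyClosed.isIntegral_iff (R := ℤ) (K := ℚ)).1 h6
    have h7 : (2 * n : ℤ) = 1 := by
      have : (2 : ℚ) * (n : ℚ) = 1 := by
        have h8 : (n : ℚ) = 1 / 2 := by simpa using hn
        rw [h8]; norm_num
      exact_mod_cast this
    omega
  obtain ⟨M, hM, hle⟩ := Ideal.exists_le_maximal _ h2
  have hm2 : (2 : integralClosure ℤ ℂ) ∈ M := hle (Ideal.mem_span_singleton_self _)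
  let _ : Field (integralClosure ℤ ℂ ⧸ M) := Ideal.Quotient.field M
  refine ⟨integralClosure ℤ ℂ ⧸ M, inferInstance, ?_, ⟨Ideal.Quotient.mk M⟩⟩
  have h9 : ((2 : ℕ) : integralClosure ℤ ℂ ⧸ M) = 0 := by
    have := (Ideal.Quotient.eq_zero_iff_mem (I := M)).2 hm2
    exact_mod_cast this
  exact CharTwo.of_one_ne_zero_of_two_eq_zero one_ne_zero (by exact_mod_cast h9)

theorem reverse_iff {S : Type} [Field S] (i : ℤ →+* S) {w : S} (hw : w ≠ 0) (G : ℤ[X]) :
    eval₂ i w G.reverse = 0 ↔ eval₂ i w⁻¹ G = 0 := by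
  have hw' : w⁻¹ ≠ 0 := inv_ne_zero hw
  let _ : Invertible (w⁻¹) := invertibleOfNonzero hw'
  have h := eval₂_reverse_eq_zero_iff i (w⁻¹) G
  rw [invOf_eq_inv, inv_inv] at h
  exact h

section

variable {k : Type} [Field k] [Finite k]

theorem facs_inert {f : k[X]} (hm : f.Monic) (hf : 0 < f.natDegree) (P : MI k)
    (hP : Irreducible (P.1.comp f)) :
    facs (P.1.comp f) = {⟨P.1.comp f, P.2.1.comp hm hf.ne', hP⟩} := by
  ext R
  rw [mem_facs hP.ne_zero, Finset.mem_singleton]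
  constructor
  · intro h
    exact Subtype.ext (eq_of_monic_of_associated R.2.1 (P.2.1.comp hm hf.ne')
      (R.2.2.associated_of_dvd hP h))
  · rintro rfl
    exact dvd_rfl

/-- the `L`-function modulo two, if all the prime factors of `D` are inert -/
theorem map_eq (hq : ((Nat.card k : ℕ) : ZMod 2) = 1) {f D : k[X]} (hm : f.Monic)
    (hf : 0 < f.natDegree) (hD : D ≠ 0) (hin : ∀ P ∈ facs D, Irreducible (P.1.comp f))
    (G : ℤ[X]) (hG : Pool.Agent.TH943.HJ.LF f D = (G : PowerSeries ℤ)) :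
    G.map (Int.castRingHom (ZMod 2)) =
      ∏ P ∈ facs D, ∑ j ∈ Finset.range f.natDegree, (X ^ P.1.natDegree : (ZMod 2)[X]) ^ j := by
  classical
  have hid := Pool.Agent.TH943.HJ.identity hq hf hD
  rw [hG, red2_poly] at hid
  have h1 : ∀ P ∈ facs D, (∏ R ∈ facs (P.1.comp f), (1 + PowerSeries.X ^ R.1.natDegree :
      PowerSeries (ZMod 2))) = 1 + PowerSeries.X ^ (P.1.natDegree * f.natDegree) := by
    intro P hP
    rw [facs_inert hm hf P (hin P hP), Finset.prod_singleton, natDegree_comp]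
  rw [Finset.prod_congr rfl h1] at hid
  have h2 : G.map (Int.castRingHom (ZMod 2)) * ∏ P ∈ facs D, (1 + X ^ P.1.natDegree) =
      ∏ P ∈ facs D, (1 + X ^ (P.1.natDegree * f.natDegree)) := by
    apply coe_inj2
    rw [Polynomial.coe_mul, coe_prod, coe_prod]
    refine Eq.trans ?_ (hid.trans ?_)
    · congr 1
      exact Finset.prod_congr rfl fun v _ => coe_zf' _
    · exact Finset.prod_congr rfl fun v _ => (coe_zf' _).symm
  have h3 : ∏ P ∈ facs D, (1 + X ^ (P.1.natDegree * f.natDegree) : (ZMod 2)[X]) =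
      (∏ P ∈ facs D, ∑ j ∈ Finset.range f.natDegree, (X ^ P.1.natDegree : (ZMod 2)[X]) ^ j) *
        ∏ P ∈ facs D, (1 + X ^ P.1.natDegree) := by
    rw [← Finset.prod_mul_distrib]
    refine Finset.prod_congr rfl fun P _ => ?_
    have h4 := geom_sum_mul (X ^ P.1.natDegree : (ZMod 2)[X]) f.natDegree
    rw [← pow_mul, CharTwo.sub_eq_add, CharTwo.sub_eq_add] at h4
    rw [add_comm 1, add_comm 1, ← h4]
  rw [h3] at h2
  have h5 : ∏ P ∈ facs D, (1 + X ^ P.1.natDegree : (ZMod 2)[X]) ≠ 0 :=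
    Finset.prod_ne_zero_iff.2 fun P _ => one_add_ne (MI.deg_pos P)
  exact mul_right_cancel₀ h5 h2

theorem no_zero (hq : ((Nat.card k : ℕ) : ZMod 2) = 1) {f D : k[X]} (hm : f.Monic)
    (hf : Odd f.natDegree) (hD : D ≠ 0) (hin : ∀ P ∈ facs D, Irreducible (P.1.comp f))
    {e : ℕ} (hco : Nat.Coprime e f.natDegree) {ζ : ℂ} (hζ : ζ ^ e = 1) (he : e ≠ 0) (G : ℂ[X])
    (hG : PowerSeries.map (Int.castRingHom ℂ) (Pool.Agent.TH943.HJ.LF f D) =
      (((1 - C ((Nat.card k : ℂ) * ζ) * X) * G : ℂ[X]) : PowerSeries ℂ)) : False := by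
  classical
  have hq0 : (Nat.card k : ℂ) ≠ 0 := by
    have : 0 < Nat.card k := Nat.card_pos
    exact_mod_cast this.ne'
  have hζ0 : ζ ≠ 0 := by
    rintro rfl
    rw [zero_pow he] at hζ
    exact zero_ne_one hζ
  set L := Pool.Agent.TH943.HJ.LF f D with hL
  set H : ℂ[X] := (1 - C ((Nat.card k : ℂ) * ζ) * X) * G with hH
  -- `L` is a polynomial
  set G0 : ℤ[X] := L.trunc (H.natDegree + 1) with hG0
  have hLG : L = (G0 : PowerSeries ℤ) := by
    ext n
    rw [Polynomial.coeff_coe, hG0, PowerSeries.coeff_trunc]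
    split_ifs with hn
    · rfl
    · have h1 := congrArg (PowerSeries.coeff n) hG
      rw [PowerSeries.coeff_map, Polynomial.coeff_coe,
        coeff_eq_zero_of_natDegree_lt (by omega)] at h1
      have h2 : ((PowerSeries.coeff n L : ℤ) : ℂ) = 0 := h1
      exact_mod_cast h2
  have hmap : G0.map (Int.castRingHom ℂ) = H := by
    apply Polynomial.coe_injective
    rw [← hG, hLG]
    ext n
    rw [Polynomial.coeff_coe, Polynomial.coeff_map, PowerSeries.coeff_map, Polynomial.coeff_coe]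
  have hz : (Nat.card k : ℂ) * ζ ≠ 0 := mul_ne_zero hq0 hζ0
  -- the zero
  have h0 : eval₂ (Int.castRingHom ℂ) ((Nat.card k : ℂ) * ζ)⁻¹ G0 = 0 := by
    rw [eval₂_eq_eval_map, hmap, hH, eval_mul, eval_sub, eval_one, eval_mul, eval_C, eval_X,
      mul_inv_cancel₀ hz, sub_self, zero_mul]
  rw [← reverse_iff _ hz] at h0
  have hζi : IsIntegral ℤ ζ := by
    refine ⟨X ^ e - 1, monic_X_pow_sub_C 1 he, ?_⟩
    simp [hζ]
  let z : integralClosure ℤ ℂ := ⟨ζ, hζi⟩
  have hze : z ^ e = 1 := Subtype.ext hζ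
  obtain ⟨F, hF, hF2, ⟨φ⟩⟩ := exists_hom
  have h1 : eval₂ (Int.castRingHom (integralClosure ℤ ℂ)) ((Nat.card k : integralClosure ℤ ℂ) * z)
      G0.reverse = 0 := by
    apply Subtype.val_injective
    have h2 := Polynomial.hom_eval₂ G0.reverse (Int.castRingHom (integralClosure ℤ ℂ))
      (algebraMap (integralClosure ℤ ℂ) ℂ) ((Nat.card k : integralClosure ℤ ℂ) * z)
    have h3 : (algebraMap (integralClosure ℤ ℂ) ℂ).comp (Int.castRingHom (integralClosure ℤ ℂ)) =
        Int.castRingHom ℂ := RingHom.ext_int _ _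
    have h4 : algebraMap (integralClosure ℤ ℂ) ℂ ((Nat.card k : integralClosure ℤ ℂ) * z) =
        (Nat.card k : ℂ) * ζ := by
      rw [map_mul, map_natCast]
      rfl
    rw [h3, h4, h0] at h2
    exact h2
  have h2 := congrArg φ h1
  rw [map_zero, Polynomial.hom_eval₂, map_mul, map_natCast] at h2
  have h3 : φ.comp (Int.castRingHom (integralClosure ℤ ℂ)) = Int.castRingHom F := RingHom.ext_int _ _
  have hqF : ((Nat.card k : ℕ) : F) = 1 := by
    have h4 : ((Nat.card k : ℕ) : F) = ZMod.castHom (dvd_refl 2) F ((Nat.card k : ℕ) : ZMod 2) := by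
      rw [map_natCast]
    rw [h4, hq, map_one]
  rw [h3, hqF, one_mul] at h2
  have hwe : φ z ^ e = 1 := by rw [← map_pow, hze, map_one]
  have hw0 : φ z ≠ 0 := by
    intro h
    rw [h, zero_pow he] at hwe
    exact zero_ne_one hwe
  rw [reverse_iff _ hw0] at h2
  have h5 : Int.castRingHom F = (ZMod.castHom (dvd_refl 2) F).comp (Int.castRingHom (ZMod 2)) :=
    RingHom.ext_int _ _
  rw [h5, ← Polynomial.eval₂_map, map_eq hq hm hf.pos hD hin G0 hLG,
    Polynomial.eval₂_finset_prod] at h2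
  obtain ⟨P, hP, h6⟩ := Finset.prod_eq_zero_iff.1 h2
  rw [Polynomial.eval₂_finset_sum] at h6
  simp only [eval₂_pow, eval₂_X] at h6
  set η : F := (φ z)⁻¹ ^ P.1.natDegree with hη
  have h7 : η ^ f.natDegree = 1 := by
    have h8 := geom_sum_mul η f.natDegree
    rw [h6, zero_mul] at h8
    exact (sub_eq_zero.1 h8.symm)
  have h8 : η ^ e = 1 := by
    have h9 : (φ z)⁻¹ ^ e = 1 := by rw [inv_pow, hwe, inv_one]
    rw [hη, ← pow_mul, mul_comm, pow_mul, h9, one_pow]
  have h9 : η = 1 := by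
    have h10 : η ^ Nat.gcd e f.natDegree = 1 := by
      rw [pow_gcd_eq_one]
      exact ⟨h8, h7⟩
    rwa [hco, pow_one] at h10
  rw [h9] at h6
  simp only [one_pow, Finset.sum_const, Finset.card_range, nsmul_eq_mul, mul_one] at h6
  have h10 := (CharP.cast_eq_zero_iff F 2 f.natDegree).1 h6
  obtain ⟨c, hc⟩ := hf
  omega

end

end Pool.Agent.Q7.PT
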