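import Mathlib.FieldTheory.Finite.GaloisField
import Pool.Agent.TH943.PT.DkC
import Pool.Agent.Q7.PT.Zero

/-!
Averages over the primes of a given degree.
-/

set_option autoImplicit false
set_option maxHeartbeats 1000000

open Polynomial

namespace Pool.Agent.Q7.PT

open Pool.Agent.W313.Hyp Pool.Agent.W343.BSD Pool.Agent.TH943.HJ

section

variable {k : Type} [Field k] [Finite k]

/-- the number of the primes of degree `N` -/
theorem count_all {N : ℕ} (hN : 0 < N) :
    (Nat.card k : ℤ) ^ N - ∑ d ∈ N.properDivisors, (Nat.card k : ℤ) ^ d ≤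
      (N : ℤ) * ({P : {P : k[X] // P.Monic ∧ Irreducible P} | P.1.natDegree = N}.ncard : ℤ) ∧
    (N : ℤ) * ({P : {P : k[X] // P.Monic ∧ Irreducible P} | P.1.natDegree = N}.ncard : ℤ) ≤
      (Nat.card k : ℤ) ^ N := by
  classical
  obtain ⟨p, hp⟩ := CharP.exists k
  have : Fact (Nat.Prime p) := ⟨CharP.char_is_prime k p⟩
  have : NeZero N := ⟨hN.ne'⟩
  let L := FiniteField.Extension k p N
  have hfin : Module.finrank k L = N := FiniteField.finrank_extension k p N
  have hLk : Module.Finite k L := Module.Finite.of_finite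
  have hcard : Nat.card L = Nat.card k ^ N := FiniteField.natCard_extension k p N
  have hc := Pool.Agent.TH943.PT.count hfin (fun _ => True)
  have hs := Pool.Agent.TH943.PT.ncard_small (k := k) (L := L) hfin
  simp only [and_true] at hc
  set U : Set L := {u : L | (minpoly k u).natDegree = N} with hU
  have h8 := Set.ncard_add_ncard_compl U
  have h9 : Uᶜ = {u : L | (minpoly k u).natDegree ≠ N} := rfl
  rw [h9, hcard] at h8
  have e1 : (N : ℤ) * ({P : {P : k[X] // P.Monic ∧ Irreducible P} |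
      P.1.natDegree = N}.ncard : ℤ) = (U.ncard : ℤ) := by exact_mod_cast hc
  rw [e1]
  have e2 : (U.ncard : ℤ) + ({u : L | (minpoly k u).natDegree ≠ N}.ncard : ℤ) =
      (Nat.card k : ℤ) ^ N := by exact_mod_cast h8
  have e3 : ({u : L | (minpoly k u).natDegree ≠ N}.ncard : ℤ) ≤
      ∑ d ∈ N.properDivisors, (Nat.card k : ℤ) ^ d := by exact_mod_cast hs
  have e4 : (0 : ℤ) ≤ ({u : L | (minpoly k u).natDegree ≠ N}.ncard : ℤ) := by positivity
  constructor <;> linarith

theorem finite_deg (N : ℕ) : {P : {P : k[X] // P.Monic ∧ Irreducible P} | P.1.natDegree = N}.Finite :=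
  (finite_deg_le (F := k) N).subset fun _ h => le_of_eq h

omit [Finite k] in
/-- a sum over the primes with many vanishing terms -/
theorem sum_add_le {A B : Set (MI k)} (hA : A.Finite) (hB : B ⊆ A) (s : MI k → ℕ) (M : ℕ)
    (h0 : ∀ P ∈ B, s P = 0) (h1 : ∀ P ∈ A, s P ≤ M) :
    ∑ᶠ P ∈ A, s P + M * B.ncard ≤ M * A.ncard := by
  classical
  rw [finsum_mem_eq_finite_toFinset_sum _ hA, Set.ncard_eq_toFinset_card A hA,
    Set.ncard_eq_toFinset_card B (hA.subset hB)]
  have hsub : (hA.subset hB).toFinset ⊆ hA.toFinset := by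
    intro P hP
    rw [Set.Finite.mem_toFinset] at hP ⊢
    exact hB hP
  rw [← Finset.sum_sdiff hsub]
  have h2 : ∑ P ∈ (hA.subset hB).toFinset, s P = 0 :=
    Finset.sum_eq_zero fun P hP => h0 P ((Set.Finite.mem_toFinset _).1 hP)
  have h3 : ∑ P ∈ hA.toFinset \ (hA.subset hB).toFinset, s P ≤
      (hA.toFinset \ (hA.subset hB).toFinset).card * M := by
    rw [← smul_eq_mul]
    refine Finset.sum_le_card_nsmul _ _ _ fun P hP => ?_
    rw [Finset.mem_sdiff, Set.Finite.mem_toFinset] at hP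
    exact h1 P hP.1
  have h4 := Finset.card_sdiff_add_card_eq_card hsub
  rw [h2, add_zero, ← h4]
  nlinarith

open Classical in
/-- the two orders for a prime -/
theorem prime_le (h2 : (2 : k) ≠ 0) {f : k[X]} (hm : f.Monic) (hf : Odd f.natDegree) {g : k}
    (hg : ¬ IsSquare g) (P : MI k) {a b : ℕ}
    (ha : ∃ G : ℤ[X], Pool.Agent.TH943.HJ.LF f P.1 =
      (((1 - C (Nat.card k : ℤ) * X) ^ a * G : ℤ[X]) : PowerSeries ℤ))
    (hb : ∃ G : ℤ[X], Pool.Agent.TH943.HJ.LF f (C g * P.1) =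
      (((1 - C (Nat.card k : ℤ) * X) ^ b * G : ℤ[X]) : PowerSeries ℤ)) :
    a + b ≤ (f.natDegree - 1) * (if Irreducible (P.1.comp f) then 0 else twoPart P.1.natDegree) := by
  obtain ⟨G1, h1⟩ := ha
  obtain ⟨G2, h3⟩ := hb
  obtain ⟨G, hG⟩ := combine h2 hg f P.1 a b G1 G2 h1 h3
  have h4 := order_le2 h2 hm hf P.2.2.ne_zero a b G hG
  have h5 : primes P.1 = {P.1} := primes_of_irreducible P.2.1 P.2.2
  rw [h5] at h4
  refine h4.trans (le_of_eq ?_)
  congr 1
  by_cases hi : Irreducible (P.1.comp f)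
  · rw [if_pos hi, Finset.filter_singleton, if_neg (not_not.2 hi), Finset.sum_empty]
  · rw [if_neg hi, Finset.filter_singleton, if_pos hi, Finset.sum_singleton]

/-- the sum of the orders over the primes of degree `N` -/
theorem sum_orders (h2 : (2 : k) ≠ 0) {f : k[X]} (hm : f.Monic) (hf : Odd f.natDegree) {g : k}
    (hg : ¬ IsSquare g) (N : ℕ) (r r' : MI k → ℕ)
    (hr : ∀ P : MI k, P.1.natDegree = N → ∃ G : ℤ[X], Pool.Agent.TH943.HJ.LF f P.1 =
      (((1 - C (Nat.card k : ℤ) * X) ^ (r P) * G : ℤ[X]) : PowerSeries ℤ))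
    (hr' : ∀ P : MI k, P.1.natDegree = N → ∃ G : ℤ[X], Pool.Agent.TH943.HJ.LF f (C g * P.1) =
      (((1 - C (Nat.card k : ℤ) * X) ^ (r' P) * G : ℤ[X]) : PowerSeries ℤ)) :
    ∑ᶠ P ∈ {P : MI k | P.1.natDegree = N}, (r P + r' P) +
      (f.natDegree - 1) * twoPart N *
        {P : MI k | P.1.natDegree = N ∧ Irreducible (P.1.comp f)}.ncard ≤
      (f.natDegree - 1) * twoPart N * {P : MI k | P.1.natDegree = N}.ncard := by
  classical
  refine sum_add_le (finite_deg N) (fun P hP => hP.1) (fun P => r P + r' P) _ ?_ ?_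
  · rintro P ⟨hP, hi⟩
    have h := prime_le h2 hm hf hg P (hr P hP) (hr' P hP)
    rw [if_pos hi, mul_zero] at h
    exact Nat.le_zero.1 h
  · intro P hP
    have hP' : P.1.natDegree = N := hP
    refine (prime_le h2 hm hf hg P (hr P hP) (hr' P hP)).trans (Nat.mul_le_mul_left _ ?_)
    rw [hP']
    split_ifs
    · exact Nat.zero_le _
    · exact le_rfl

end

end Pool.Agent.Q7.PT
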